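import Mathlib
import Pool.Agent.MP_089fcb_co.H93.Classify

set_option autoImplicit false

namespace Pool.Agent.Results.MP_089fcb_co.Delsarte

/-- The Johnson graph `J(v,k)`: vertices are the `k`-subsets of a `v`-set, two of them adjacent
when they share `k - 1` elements. -/
def johnson (v k : ℕ) : SimpleGraph {A : Finset (Fin v) // A.card = k} where
  Adj A B := (A.1 ∩ B.1).card + 1 = k
  symm := ⟨fun A B h => by rwa [Finset.inter_comm]⟩
  loopless := ⟨fun A h => by rw [Finset.inter_self, A.2] at h; omega⟩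

/-- Every vertex is within graph distance `e` of exactly one codeword. -/
def IsPerfectCode {V : Type} (G : SimpleGraph V) (e : ℕ) (C : Set V) : Prop :=
  ∀ x : V, ∃! c : V, c ∈ C ∧ G.edist x c ≤ (e : ℕ∞)

theorem le_length {v k : ℕ} {A B : {A : Finset (Fin v) // A.card = k}}
    (p : (johnson v k).Walk A B) : (A.1 \ B.1).card ≤ p.length := by
  induction p with
  | nil => simp
  | @cons A A' B h p ih =>
    have h1 : (A.1 ∩ A'.1).card + 1 = k := h
    have h2 := Finset.card_sdiff_add_card_inter A.1 A'.1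
    have h3 : (A.1 \ B.1).card ≤ ((A.1 \ A'.1) ∪ (A'.1 \ B.1)).card := by
      refine Finset.card_le_card fun z hz => ?_
      simp only [Finset.mem_sdiff, Finset.mem_union] at hz ⊢
      tauto
    have h4 := Finset.card_union_le (A.1 \ A'.1) (A'.1 \ B.1)
    have h5 := A.2
    rw [SimpleGraph.Walk.length_cons]
    omega

theorem exists_walk {v k : ℕ} (n : ℕ) : ∀ A B : {A : Finset (Fin v) // A.card = k},
    (A.1 \ B.1).card = n → ∃ p : (johnson v k).Walk A B, p.length = n := by
  induction n with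
  | zero =>
    intro A B h
    have : A = B := by
      apply Subtype.ext
      rw [Finset.card_eq_zero, Finset.sdiff_eq_empty_iff_subset] at h
      exact Finset.eq_of_subset_of_card_le h (by rw [A.2, B.2])
    subst this
    exact ⟨SimpleGraph.Walk.nil, rfl⟩
  | succ n ih =>
    intro A B h
    have hBA : (B.1 \ A.1).card = n + 1 := by
      rw [← h]; exact Finset.card_sdiff_comm (by rw [A.2, B.2])
    obtain ⟨a, ha⟩ : (A.1 \ B.1).Nonempty := by rw [← Finset.card_pos]; omega
    obtain ⟨b, hb⟩ : (B.1 \ A.1).Nonempty := by rw [← Finset.card_pos]; omega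
    have ha' := Finset.mem_sdiff.1 ha
    have hb' := Finset.mem_sdiff.1 hb
    have hk : 0 < A.1.card := Finset.card_pos.2 ⟨a, ha'.1⟩
    have hX : (insert b (A.1.erase a)).card = k := by
      rw [Finset.card_insert_of_notMem (by simp [hb'.2]), Finset.card_erase_of_mem ha'.1]
      have := A.2
      omega
    have hadj : (johnson v k).Adj A ⟨_, hX⟩ := by
      show (A.1 ∩ insert b (A.1.erase a)).card + 1 = k
      have : A.1 ∩ insert b (A.1.erase a) = A.1.erase a := by
        ext z
        simp only [Finset.mem_inter, Finset.mem_insert, Finset.mem_erase]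
        constructor
        · rintro ⟨h1, rfl | h2⟩
          · exact absurd h1 hb'.2
          · exact h2
        · intro h1
          exact ⟨h1.2, Or.inr h1⟩
      rw [this, Finset.card_erase_of_mem ha'.1]
      have := A.2
      omega
    have hd : (insert b (A.1.erase a) \ B.1).card = n := by
      have : insert b (A.1.erase a) \ B.1 = (A.1 \ B.1).erase a := by
        ext z
        simp only [Finset.mem_sdiff, Finset.mem_insert, Finset.mem_erase]
        constructor
        · rintro ⟨rfl | h1, h2⟩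
          · exact absurd hb'.1 h2
          · exact ⟨h1.1, h1.2, h2⟩
        · rintro ⟨h1, h2, h3⟩
          exact ⟨Or.inr ⟨h1, h2⟩, h3⟩
      rw [this, Finset.card_erase_of_mem ha, h]
      rfl
    obtain ⟨p, hp⟩ := ih ⟨_, hX⟩ B hd
    exact ⟨SimpleGraph.Walk.cons hadj p, by rw [SimpleGraph.Walk.length_cons, hp]⟩

theorem edist_le_iff {v k e : ℕ} (A B : {A : Finset (Fin v) // A.card = k}) :
    (johnson v k).edist A B ≤ (e : ℕ∞) ↔ (A.1 \ B.1).card ≤ e := by
  obtain ⟨p, hp⟩ := exists_walk _ A B rfl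
  constructor
  · intro h
    obtain ⟨q, hq⟩ := SimpleGraph.Reachable.exists_walk_length_eq_edist ⟨p⟩
    rw [← hq] at h
    exact (le_length q).trans (by exact_mod_cast h)
  · intro h
    refine (SimpleGraph.Walk.edist_le p).trans ?_
    rw [hp]
    exact_mod_cast h

/-- Delsarte's conjecture: a perfect code in a Johnson graph is a single vertex, or the whole
vertex set with `e = 0`, or a complementary pair in `J(2k,k)` with `k = 2e+1`. -/
theorem result (v k e : ℕ) (hk : 1 ≤ k) (hkv : k < v)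
    (C : Set {A : Finset (Fin v) // A.card = k}) (hC : IsPerfectCode (johnson v k) e C) :
    (∃ A, C = {A}) ∨ (e = 0 ∧ C = Set.univ) ∨
      (v = 2 * k ∧ k = 2 * e + 1 ∧ ∃ A B, C = {A, B} ∧ B.1 = A.1ᶜ) := by
  classical
  rcases Nat.eq_zero_or_pos e with rfl | he
  · refine Or.inr (Or.inl ⟨rfl, Set.eq_univ_of_forall fun x => ?_⟩)
    obtain ⟨c, ⟨hc, h0⟩, -⟩ := hC x
    rw [edist_le_iff, Nat.le_zero, Finset.card_eq_zero, Finset.sdiff_eq_empty_iff_subset] at h0
    have : x = c := Subtype.ext (Finset.eq_of_subset_of_card_le h0 (by rw [x.2, c.2]))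
    rwa [this]
  let C' : Finset (Finset (Fin v)) := Finset.univ.filter fun S => ∃ A ∈ C, A.1 = S
  have hmem : ∀ A : {A : Finset (Fin v) // A.card = k}, A.1 ∈ C' ↔ A ∈ C := by
    intro A
    simp only [C', Finset.mem_filter, Finset.mem_univ, true_and]
    exact ⟨fun ⟨B, hB, h⟩ => Subtype.ext h ▸ hB, fun h => ⟨A, h, rfl⟩⟩
  have hP : MP_089fcb_co.H7.IsPerf k e C' := by
    refine ⟨?_, fun X hX => ?_⟩
    · intro S hS
      obtain ⟨A, -, rfl⟩ := (Finset.mem_filter.1 hS).2
      exact A.2
    · obtain ⟨c, ⟨hc, h0⟩, hu⟩ := hC ⟨X, hX⟩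
      rw [edist_le_iff] at h0
      refine ⟨c.1, ⟨(hmem c).2 hc, h0⟩, ?_⟩
      rintro S ⟨hS, hS2⟩
      obtain ⟨A, hA, rfl⟩ := (Finset.mem_filter.1 hS).2
      rw [hu A ⟨hA, (edist_le_iff ⟨X, hX⟩ A).2 hS2⟩]
  have hw : k ≤ Fintype.card (Fin v) := by rw [Fintype.card_fin]; omega
  obtain ⟨X, -, hX⟩ := Finset.exists_subset_card_eq (s := (Finset.univ : Finset (Fin v))) (n := k)
    (by rw [Finset.card_univ]; exact hw)
  obtain ⟨A, ⟨hA, -⟩, -⟩ := hC ⟨X, hX⟩
  by_cases h1 : ∀ B ∈ C, B = A
  · exact Or.inl ⟨A, Set.eq_singleton_iff_unique_mem.2 ⟨hA, h1⟩⟩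
  push Not at h1
  obtain ⟨B, hB, hBA⟩ := h1
  have key : ∀ D ∈ C, D ≠ A → k = 2 * e + 1 ∧ D.1 = A.1ᶜ := fun D hD hDA =>
    MP_089fcb_co.H93.pair_of_perf hP hw he ((hmem A).2 hA) ((hmem D).2 hD)
      fun h => hDA (Subtype.ext h.symm)
  obtain ⟨h2, h3⟩ := key B hB hBA
  refine Or.inr (Or.inr ⟨?_, h2, A, B, ?_, h3⟩)
  · have h4 := B.2
    rw [h3, Finset.card_compl, Fintype.card_fin, A.2] at h4
    omega
  · ext D
    simp only [Set.mem_insert_iff, Set.mem_singleton_iff]
    constructor
    · intro hD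
      by_cases hDA : D = A
      · exact Or.inl hDA
      · exact Or.inr (Subtype.ext ((key D hD hDA).2.trans h3.symm))
    · rintro (rfl | rfl)
      · exact hA
      · exact hB

end Pool.Agent.Results.MP_089fcb_co.Delsarte
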